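import Mathlib

namespace Pool.Agent.MultProd

open Finset

/-- number of primes of `P` dividing `n`, as a real -/
noncomputable def w (P : Finset ℕ) (n : ℕ) : ℝ := ∑ p ∈ P, if p ∣ n then (1:ℝ) else 0

noncomputable def S (P : Finset ℕ) : ℝ := ∑ p ∈ P, (1:ℝ) / p

lemma sum_ind (d N : ℕ) (hd : d ∣ N) :
    ∑ n ∈ Finset.Icc 1 N, (if d ∣ n then (1:ℝ) else 0) = (N:ℝ) / d := by
  rw [Finset.sum_ite, Finset.sum_const_zero, add_zero, Finset.sum_const, nsmul_eq_mul, mul_one]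
  have h := Nat.Ioc_filter_dvd_card_eq_div N d
  have h2 : Finset.Ioc 0 N = Finset.Icc 1 N := by
    ext x; simp [Nat.succ_le_iff]
  rw [h2] at h
  rw [h]
  rcases Nat.eq_zero_or_pos d with h0 | h0
  · subst h0; simp
  · rw [Nat.cast_div hd (by exact_mod_cast h0.ne')]

lemma sum_w (P : Finset ℕ) (N : ℕ) (hN : ∀ p ∈ P, p ∣ N) :
    ∑ n ∈ Finset.Icc 1 N, w P n = N * S P := by
  unfold w S
  rw [Finset.sum_comm, Finset.mul_sum]
  refine Finset.sum_congr rfl fun p hp => ?_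
  rw [sum_ind p N (hN p hp)]
  ring

lemma sum_w_sq (P : Finset ℕ) (hP : ∀ p ∈ P, p.Prime) (N : ℕ) (hN : ∏ p ∈ P, p ∣ N) :
    ∑ n ∈ Finset.Icc 1 N, (w P n)^2 ≤ N * (S P)^2 + N * S P := by
  have hpN : ∀ p ∈ P, p ∣ N := fun p hp => (Finset.dvd_prod_of_mem _ hp).trans hN
  have h1 : ∀ n, (w P n)^2 = ∑ p ∈ P, ∑ q ∈ P, ((if p ∣ n then (1:ℝ) else 0) * (if q ∣ n then (1:ℝ) else 0)) := by
    intro n
    rw [sq]; unfold w
    rw [Finset.sum_mul_sum]
  simp_rw [h1]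
  rw [Finset.sum_comm]
  have h2 : ∀ p ∈ P, ∑ n ∈ Finset.Icc 1 N, ∑ q ∈ P, ((if p ∣ n then (1:ℝ) else 0) * (if q ∣ n then (1:ℝ) else 0))
      ≤ N * ((1:ℝ)/p) * S P + N * ((1:ℝ)/p) := by
    intro p hp
    rw [Finset.sum_comm]
    have h3 : ∀ q ∈ P, ∑ n ∈ Finset.Icc 1 N, ((if p ∣ n then (1:ℝ) else 0) * (if q ∣ n then (1:ℝ) else 0))
        ≤ N * ((1:ℝ)/p) * ((1:ℝ)/q) + (if q = p then N * ((1:ℝ)/p) else 0) := by
      intro q hq
      by_cases hpq : q = p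
      · subst hpq
        simp only [if_true]
        have : ∀ n, ((if q ∣ n then (1:ℝ) else 0) * (if q ∣ n then (1:ℝ) else 0)) = (if q ∣ n then (1:ℝ) else 0) := by
          intro n; split_ifs <;> simp
        simp_rw [this]
        rw [sum_ind q N (hpN q hq)]
        have : (0:ℝ) ≤ N * ((1:ℝ)/q) * ((1:ℝ)/q) := by positivity
        have h5 : (N:ℝ) / q = N * ((1:ℝ)/q) := by ring
        linarith
      · simp only [if_neg hpq, add_zero]
        have hcop : Nat.Coprime p q := (Nat.coprime_primes (hP p hp) (hP q hq)).2 (fun h => hpq h.symm)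
        have : ∀ n, ((if p ∣ n then (1:ℝ) else 0) * (if q ∣ n then (1:ℝ) else 0)) = (if p * q ∣ n then (1:ℝ) else 0) := by
          intro n
          by_cases h1 : p ∣ n
          · by_cases h2 : q ∣ n
            · have : p * q ∣ n := hcop.mul_dvd_of_dvd_of_dvd h1 h2
              simp [h1, h2, this]
            · have : ¬ p * q ∣ n := fun h => h2 ((Dvd.intro_left p rfl).trans h)
              simp [h2, this]
          · have : ¬ p * q ∣ n := fun h => h1 ((Dvd.intro q rfl).trans h)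
            simp [h1, this]
        simp_rw [this]
        rw [sum_ind (p*q) N (hcop.mul_dvd_of_dvd_of_dvd (hpN p hp) (hpN q hq))]
        push_cast
        apply le_of_eq
        have hp0 : (p:ℝ) ≠ 0 := by exact_mod_cast (hP p hp).ne_zero
        have hq0 : (q:ℝ) ≠ 0 := by exact_mod_cast (hP q hq).ne_zero
        field_simp
    refine (Finset.sum_le_sum h3).trans ?_
    rw [Finset.sum_add_distrib]
    unfold S
    rw [Finset.mul_sum]
    simp [hp]
  refine (Finset.sum_le_sum h2).trans ?_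
  rw [Finset.sum_add_distrib]
  apply le_of_eq
  have h6 : ∑ x ∈ P, (N:ℝ) * (1 / (x:ℝ)) * S P = N * (S P)^2 := by
    rw [← Finset.sum_mul, ← Finset.mul_sum]
    unfold S
    ring
  have h7 : ∑ x ∈ P, (N:ℝ) * (1 / (x:ℝ)) = N * (S P) := by
    rw [← Finset.mul_sum]
    unfold S
    ring
  rw [h6, h7]

lemma variance (P : Finset ℕ) (hP : ∀ p ∈ P, p.Prime) (N : ℕ) (hN : ∏ p ∈ P, p ∣ N) :
    ∑ n ∈ Finset.Icc 1 N, (w P n - S P)^2 ≤ N * S P := by
  have hpN : ∀ p ∈ P, p ∣ N := fun p hp => (Finset.dvd_prod_of_mem _ hp).trans hN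
  have h1 : ∀ n, (w P n - S P)^2 = (w P n)^2 - 2 * S P * w P n + (S P)^2 := by intro n; ring
  simp_rw [h1]
  rw [Finset.sum_add_distrib, Finset.sum_sub_distrib, ← Finset.mul_sum, sum_w P N hpN]
  simp only [Finset.sum_const, Nat.card_Icc, Nat.add_sub_cancel, nsmul_eq_mul]
  have := sum_w_sq P hP N hN
  nlinarith

lemma card_dev (P : Finset ℕ) (hP : ∀ p ∈ P, p.Prime) (N : ℕ) (hN : ∏ p ∈ P, p ∣ N) (hS : 0 < S P) :
    (#{n ∈ Finset.Icc 1 N | (S P / 4) ≤ |w P n - S P|} : ℝ) ≤ 16 * N / S P := by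
  have h := variance P hP N hN
  have h2 : (#{n ∈ Finset.Icc 1 N | (S P / 4) ≤ |w P n - S P|} : ℝ) * (S P / 4)^2 ≤
      ∑ n ∈ Finset.Icc 1 N, (w P n - S P)^2 := by
    calc (#{n ∈ Finset.Icc 1 N | (S P / 4) ≤ |w P n - S P|} : ℝ) * (S P / 4)^2
        = ∑ n ∈ {n ∈ Finset.Icc 1 N | (S P / 4) ≤ |w P n - S P|}, (S P / 4)^2 := by
          rw [Finset.sum_const, nsmul_eq_mul]
      _ ≤ ∑ n ∈ {n ∈ Finset.Icc 1 N | (S P / 4) ≤ |w P n - S P|}, (w P n - S P)^2 := by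
          refine Finset.sum_le_sum fun n hn => ?_
          have := (Finset.mem_filter.1 hn).2
          rw [← sq_abs (w P n - S P)]
          exact pow_le_pow_left₀ (by positivity) this 2
      _ ≤ ∑ n ∈ Finset.Icc 1 N, (w P n - S P)^2 := by
          refine Finset.sum_le_sum_of_subset_of_nonneg (Finset.filter_subset _ _) fun n _ _ => sq_nonneg _
  have h3 : (#{n ∈ Finset.Icc 1 N | (S P / 4) ≤ |w P n - S P|} : ℝ) * (S P / 4)^2 ≤ N * S P := h2.trans h
  rw [le_div_iff₀ hS]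
  have h4 : (#{n ∈ Finset.Icc 1 N | (S P / 4) ≤ |w P n - S P|} : ℝ) * (S P / 4)^2 =
    ((#{n ∈ Finset.Icc 1 N | (S P / 4) ≤ |w P n - S P|} : ℝ) * S P) * (S P / 16) := by ring
  rw [h4] at h3
  have h5 : (N:ℝ) * S P = (16 * N) * (S P / 16) := by ring
  rw [h5] at h3
  exact le_of_mul_le_mul_right h3 (by positivity)

/-- common prime count -/
noncomputable def c (P : Finset ℕ) (a b : ℕ) : ℝ := ∑ p ∈ P, (if p ∣ a then (1:ℝ) else 0) * (if p ∣ b then (1:ℝ) else 0)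

lemma w_mul (P : Finset ℕ) (hP : ∀ p ∈ P, p.Prime) (a b : ℕ) : w P (a*b) = w P a + w P b - c P a b := by
  unfold w c
  rw [← Finset.sum_add_distrib, ← Finset.sum_sub_distrib]
  refine Finset.sum_congr rfl fun p hp => ?_
  have h0 := (hP p hp).dvd_mul (m := a) (n := b)
  by_cases h1 : p ∣ a <;> by_cases h2 : p ∣ b <;> simp [h0, h1, h2]

lemma sum_c (P : Finset ℕ) (N : ℕ) (hN : ∀ p ∈ P, p ∣ N) :
    ∑ x ∈ Finset.Icc 1 N ×ˢ Finset.Icc 1 N, c P x.1 x.2 = N^2 * ∑ p ∈ P, (1:ℝ)/(p:ℝ)^2 := by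
  unfold c
  rw [Finset.sum_comm, Finset.mul_sum]
  refine Finset.sum_congr rfl fun p hp => ?_
  rw [Finset.sum_product]
  have h1 : ∀ x ∈ Finset.Icc 1 N, ∑ y ∈ Finset.Icc 1 N, ((if p ∣ (x, y).1 then (1:ℝ) else 0) * (if p ∣ (x, y).2 then (1:ℝ) else 0))
      = (if p ∣ x then (1:ℝ) else 0) * ((N:ℝ)/p) := by
    intro x _
    by_cases hx : p ∣ x
    · simp only [hx, if_true, one_mul]
      exact sum_ind p N (hN p hp)
    · simp [hx]
  rw [Finset.sum_congr rfl h1, ← Finset.sum_mul, sum_ind p N (hN p hp)]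
  ring

/-- Multiplication table. -/
def table (N : ℕ) : Finset ℕ := (Finset.Icc 1 N ×ˢ Finset.Icc 1 N).image fun x => x.1 * x.2

lemma sum_inv_sq_le (P : Finset ℕ) : ∑ p ∈ P, (1:ℝ)/(p:ℝ)^2 ≤ ∑' n : ℕ, (1:ℝ)/(n:ℝ)^2 := by
  refine Summable.sum_le_tsum P (fun _ _ => by positivity) ?_
  exact Real.summable_one_div_nat_pow.2 (by norm_num)

lemma table_card (P : Finset ℕ) (hP : ∀ p ∈ P, p.Prime) (N : ℕ) (hN : ∏ p ∈ P, p ∣ N) (hS : 0 < S P) :
    ((table N).card : ℝ) ≤ (48 + 4 * ∑' n : ℕ, (1:ℝ)/(n:ℝ)^2) * (N:ℝ)^2 / S P := by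
  classical
  have hpN : ∀ p ∈ P, p ∣ N := fun p hp => (Finset.dvd_prod_of_mem _ hp).trans hN
  set E0 : Finset ℕ := {n ∈ Finset.Icc 1 (N^2) | (S P / 4) ≤ |w P n - S P|} with hE0
  set E1 : Finset ℕ := {n ∈ Finset.Icc 1 N | (S P / 4) ≤ |w P n - S P|} with hE1
  set E2 : Finset (ℕ × ℕ) := {x ∈ Finset.Icc 1 N ×ˢ Finset.Icc 1 N | (S P / 4) ≤ c P x.1 x.2} with hE2
  have hE0c : (E0.card : ℝ) ≤ 16 * (N^2 : ℕ) / S P := by
    have := card_dev P hP (N^2) (hN.trans (Dvd.intro_left (N) (by ring))) hS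
    exact this
  have hE1c : (E1.card : ℝ) ≤ 16 * N / S P := card_dev P hP N hN hS
  have hE2c : (E2.card : ℝ) ≤ 4 * (∑' n : ℕ, (1:ℝ)/(n:ℝ)^2) * (N:ℝ)^2 / S P := by
    have h1 : (E2.card : ℝ) * (S P / 4) ≤ (N:ℝ)^2 * ∑' n : ℕ, (1:ℝ)/(n:ℝ)^2 := by
      calc (E2.card : ℝ) * (S P / 4) = ∑ x ∈ E2, (S P / 4) := by
            rw [Finset.sum_const, nsmul_eq_mul]
        _ ≤ ∑ x ∈ E2, c P x.1 x.2 := Finset.sum_le_sum fun x hx => (Finset.mem_filter.1 hx).2
        _ ≤ ∑ x ∈ Finset.Icc 1 N ×ˢ Finset.Icc 1 N, c P x.1 x.2 := by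
            refine Finset.sum_le_sum_of_subset_of_nonneg (Finset.filter_subset _ _) fun x _ _ => ?_
            unfold c
            refine Finset.sum_nonneg fun p _ => ?_
            split_ifs <;> norm_num
        _ = (N:ℝ)^2 * ∑ p ∈ P, (1:ℝ)/(p:ℝ)^2 := sum_c P N hpN
        _ ≤ _ := by
            apply mul_le_mul_of_nonneg_left (sum_inv_sq_le P) (by positivity)
    rw [le_div_iff₀ hS]
    linarith
  have hsub : table N ⊆ E0 ∪ ((E1 ×ˢ Finset.Icc 1 N) ∪ (Finset.Icc 1 N ×ˢ E1) ∪ E2).image (fun x => x.1 * x.2) := by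
    intro n hn
    unfold table at hn
    rw [Finset.mem_image] at hn
    obtain ⟨⟨a, b⟩, hab, rfl⟩ := hn
    rw [Finset.mem_product] at hab
    obtain ⟨ha, hb⟩ := hab
    dsimp only at ha hb ⊢
    rw [Finset.mem_union]
    by_cases h1 : a ∈ E1
    · right
      rw [Finset.mem_image]
      exact ⟨(a, b), by simp only [Finset.mem_union, Finset.mem_product]; exact Or.inl (Or.inl ⟨h1, hb⟩), rfl⟩
    by_cases h2 : b ∈ E1
    · right
      rw [Finset.mem_image]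
      exact ⟨(a, b), by simp only [Finset.mem_union, Finset.mem_product]; exact Or.inl (Or.inr ⟨ha, h2⟩), rfl⟩
    by_cases h3 : (a, b) ∈ E2
    · right
      rw [Finset.mem_image]
      exact ⟨(a, b), by simp only [Finset.mem_union, Finset.mem_product]; exact Or.inr h3, rfl⟩
    left
    rw [hE1, Finset.mem_filter, not_and, not_le] at h1 h2
    rw [hE2, Finset.mem_filter, not_and, not_le] at h3
    have h1' := abs_lt.1 (h1 ha)
    have h2' := abs_lt.1 (h2 hb)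
    have h3' := h3 (Finset.mem_product.2 ⟨ha, hb⟩)
    dsimp only at h3'
    rw [hE0, Finset.mem_filter]
    rw [Finset.mem_Icc] at ha hb
    refine ⟨Finset.mem_Icc.2 ⟨Nat.mul_pos ha.1 hb.1, ?_⟩, ?_⟩
    · rw [sq]; exact Nat.mul_le_mul ha.2 hb.2
    · rw [w_mul P hP]
      have : S P / 4 ≤ w P a + w P b - c P a b - S P := by linarith
      exact this.trans (le_abs_self _)
  have hcard : ((table N).card : ℝ) ≤ E0.card + (E1.card * N + N * E1.card + E2.card) := by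
    have h1 := (Finset.card_le_card hsub).trans (Finset.card_union_le _ _)
    have h2 : (((E1 ×ˢ Finset.Icc 1 N) ∪ (Finset.Icc 1 N ×ˢ E1) ∪ E2).image (fun x => x.1 * x.2)).card
        ≤ E1.card * N + N * E1.card + E2.card := by
      refine Finset.card_image_le.trans ((Finset.card_union_le _ _).trans ?_)
      refine Nat.add_le_add_right ((Finset.card_union_le _ _).trans ?_) _
      simp [Finset.card_product]
    exact_mod_cast h1.trans (Nat.add_le_add_left h2 _)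
  have hN0 : (0:ℝ) ≤ N := Nat.cast_nonneg N
  have h8 : (E1.card : ℝ) * N ≤ 16 * (N:ℝ)^2 / S P := by
    calc (E1.card : ℝ) * N ≤ (16 * N / S P) * N := mul_le_mul_of_nonneg_right hE1c hN0
      _ = 16 * (N:ℝ)^2 / S P := by ring
  push_cast at hE0c
  calc ((table N).card : ℝ) ≤ E0.card + (E1.card * N + N * E1.card + E2.card) := hcard
    _ ≤ 16 * (N:ℝ)^2 / S P + (16 * (N:ℝ)^2 / S P + 16 * (N:ℝ)^2 / S P + 4 * (∑' n : ℕ, (1:ℝ)/(n:ℝ)^2) * (N:ℝ)^2 / S P) := by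
        have : (N:ℝ) * E1.card = E1.card * N := by ring
        linarith
    _ = _ := by ring

lemma S_unbounded (B : ℝ) : ∃ P : Finset ℕ, (∀ p ∈ P, p.Prime) ∧ B < S P := by
  by_contra hcon
  push Not at hcon
  apply Nat.Primes.not_summable_one_div
  refine summable_of_sum_le (c := B) (fun _ => by positivity) fun u => ?_
  let g : Nat.Primes → ℕ := fun p => p.1
  have hg : Function.Injective g := fun a b h => Subtype.ext h
  have := hcon (u.image g) (by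
    intro p hp
    rw [Finset.mem_image] at hp
    obtain ⟨q, _, rfl⟩ := hp
    exact q.2)
  unfold S at this
  rw [Finset.sum_image (fun a _ b _ h => hg h)] at this
  exact this

/-- Erdős multiplication table theorem along multiples of a suitable modulus. -/
theorem table_small (ε : ℝ) (hε : 0 < ε) :
    ∃ Q : ℕ, 0 < Q ∧ ∀ N : ℕ, Q ∣ N → ((table N).card : ℝ) ≤ ε * (N:ℝ)^2 := by
  obtain ⟨P, hP, hS⟩ := S_unbounded (max 1 ((48 + 4 * ∑' n : ℕ, (1:ℝ)/(n:ℝ)^2) / ε))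
  have hS1 : 0 < S P := lt_of_lt_of_le zero_lt_one ((le_max_left _ _).trans hS.le)
  have hS2 : (48 + 4 * ∑' n : ℕ, (1:ℝ)/(n:ℝ)^2) / ε ≤ S P := (le_max_right _ _).trans hS.le
  refine ⟨∏ p ∈ P, p, Finset.prod_pos fun p hp => (hP p hp).pos, fun N hN => ?_⟩
  refine (table_card P hP N hN hS1).trans ?_
  rw [div_le_iff₀ hS1]
  rw [div_le_iff₀ hε] at hS2
  have : (0:ℝ) ≤ (N:ℝ)^2 := by positivity
  nlinarith

end Pool.Agent.MultProd
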